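import Pool.Agent.D0H61.CC.Stm

/-!
Module CORE of project CC.
-/

set_option autoImplicit false

namespace Pool.Agent.D0H35.CC

open Filter Topology MeasureTheory Finset Pool.Agent.D0H61.CC

theorem meas_PP (n : ℕ) (κ γ : ℝ) (a b : ℤ) :
    MeasurableSet {α : ℝ | PP (⌊α * n⌋ + a) ∧ PP (⌊γ * α ^ κ * n⌋ + b)} := by
  have h1 : Measurable fun α : ℝ => (⌊α * n⌋ + a : ℤ) :=
    (Int.measurable_floor.comp (measurable_id.mul_const _)).add_const _
  have h2 : Measurable fun α : ℝ => (⌊γ * α ^ κ * n⌋ + b : ℤ) :=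
    (Int.measurable_floor.comp (((measurable_id.pow_const κ).const_mul γ).mul_const _)).add_const _
  have h3 : MeasurableSet {z : ℤ | PP z} := MeasurableSet.of_discrete
  exact (h1 h3).inter (h2 h3)

theorem Mc_sum (κ γ : ℝ) (a b : ℤ) (G : Finset ℕ) (α : ℝ) :
    (Mc κ γ a b G α : ℝ) = ∑ n ∈ G,
      Set.indicator {α : ℝ | PP (⌊α * n⌋ + a) ∧ PP (⌊γ * α ^ κ * n⌋ + b)} (fun _ => (1 : ℝ)) α := by
  classical
  unfold Mc
  rw [Finset.card_filter]
  push_cast
  refine Finset.sum_congr rfl fun n _ => ?_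
  simp only [Set.indicator, Set.mem_ofPred_eq]

theorem meas_Mc (κ γ : ℝ) (a b : ℤ) (G : Finset ℕ) :
    Measurable fun α : ℝ => (Mc κ γ a b G α : ℝ) := by
  have : (fun α : ℝ => (Mc κ γ a b G α : ℝ)) = fun α => ∑ n ∈ G,
      Set.indicator {α : ℝ | PP (⌊α * n⌋ + a) ∧ PP (⌊γ * α ^ κ * n⌋ + b)} (fun _ => (1 : ℝ)) α :=
    funext fun α => Mc_sum κ γ a b G α
  rw [this]
  exact Finset.measurable_sum _ fun n _ => measurable_const.indicator (meas_PP n κ γ a b)

theorem Mc_le (κ γ : ℝ) (a b : ℤ) (G : Finset ℕ) (α : ℝ) : (Mc κ γ a b G α : ℝ) ≤ G.card := by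
  classical
  unfold Mc
  exact_mod_cast Finset.card_filter_le _ _

theorem int_Mc (κ γ : ℝ) (a b : ℤ) (G : Finset ℕ) {s : Set ℝ} (hs : volume s ≠ ⊤) :
    IntegrableOn (fun α : ℝ => (Mc κ γ a b G α : ℝ)) s := by
  refine Measure.integrableOn_of_bounded (M := (G.card : ℝ)) hs
    (meas_Mc κ γ a b G).aestronglyMeasurable ?_
  refine Filter.Eventually.of_forall fun α => ?_
  rw [Real.norm_of_nonneg (Nat.cast_nonneg _)]
  exact Mc_le κ γ a b G α

theorem t_CORE : S_FM → S_SV → S_CORE := by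
  intro hFM hSV κ γ a b R hκ0 hκ1 hγ hR
  obtain ⟨c₁, hc₁, η₀, hη₀, hη₀1, hFM⟩ := hFM κ γ a b R hκ0 hκ1 hγ hR
  obtain ⟨C₂, hC₂, c₂, hc₂, hc₂1, hSV⟩ := hSV κ γ a b (4 * R) hκ0 hκ1 hγ (by linarith)
  refine ⟨c₁ / (2 * C₂), by positivity, η₀, hη₀, hη₀1, ?_⟩
  intro C α₀ η hα1 hα2 hη hηη
  have hR0 : 0 < R := by linarith
  have hα0 : 0 < α₀ := lt_of_lt_of_le (by positivity) hα1
  have e1 : ∀ᶠ N : ℕ in atTop, Real.log N ^ (C + 2) ≤ c₁ * η / 4 * (N : ℝ) ^ c₂ := by
    have h := (isLittleO_log_rpow_rpow_atTop ((C + 2 : ℕ) : ℝ) hc₂).def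
      (show (0 : ℝ) < c₁ * η / 4 by positivity)
    filter_upwards [tendsto_natCast_atTop_atTop.eventually h, eventually_ge_atTop 2] with N hN h2
    rw [Real.rpow_natCast, Real.norm_of_nonneg (by positivity),
      Real.norm_of_nonneg (by positivity)] at hN
    exact hN
  have e2 : ∀ᶠ N : ℕ in atTop, 12 * R / c₁ ≤ Real.log N :=
    (Real.tendsto_log_atTop.comp tendsto_natCast_atTop_atTop).eventually (eventually_ge_atTop _)
  filter_upwards [hFM C α₀ η hα1 hα2 hη hηη, hSV, e1, e2, eventually_ge_atTop 3] with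
    N hN1 hN2 hN3 hN4 hN5 G hG hGc
  have hNr : (3 : ℝ) ≤ N := by exact_mod_cast hN5
  have hN0 : (0 : ℝ) < N := by linarith
  have hlog : 0 < Real.log N := Real.log_pos (by linarith)
  have hGpos : (0 : ℝ) < G.card := by
    rcases Nat.eq_zero_or_pos G.card with h0 | h0
    · rw [h0, Nat.cast_zero, zero_mul] at hGc
      linarith
    · exact_mod_cast h0
  have hη1 : η ≤ 1 := hηη.trans hη₀1
  have hG2 : ∀ n ∈ G, N < n ∧ n ≤ 2 * N := by
    intro n hn
    refine ⟨(hG n hn).1, ?_⟩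
    have h1 : (n : ℝ) ≤ 2 * N := (hG n hn).2.trans (by nlinarith)
    exact_mod_cast h1
  set M : ℝ → ℝ := fun α => (Mc κ γ a b G α : ℝ) with hM
  set J : Set ℝ := Set.Icc α₀ (α₀ * (1 + 3 * η)) with hJ
  set T : Set ℝ := {α : ℝ | (G.card : ℝ) ≤ M α * Real.log N ^ 3} with hT
  have hTm : MeasurableSet T :=
    measurableSet_le measurable_const ((meas_Mc κ γ a b G).mul_const _)
  have hJm : MeasurableSet J := measurableSet_Icc
  have hJv : volume J = ENNReal.ofReal (3 * η * α₀) := by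
    rw [hJ, Real.volume_Icc]
    congr 1
    ring
  have hJf : volume J ≠ ⊤ := by rw [hJv]; exact ENNReal.ofReal_ne_top
  have hset : {α : ℝ | α ∈ Set.Icc α₀ (α₀ * (1 + 3 * η)) ∧
      (G.card : ℝ) ≤ Mc κ γ a b G α * Real.log N ^ 3} = J ∩ T := rfl
  rw [hset]
  have hBf : volume (J ∩ T) ≠ ⊤ := ne_top_of_le_ne_top hJf (measure_mono Set.inter_subset_left)
  have hsplit : ∫ α in J, M α = (∫ α in J ∩ T, M α) + ∫ α in J \ T, M α :=
    (integral_inter_add_sdiff hTm (int_Mc κ γ a b G hJf)).symm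
  have hsub : J ∩ T ⊆ Set.Icc (1 / (4 * R)) (4 * R) := by
    intro α hα
    have h1 : α₀ ≤ α := hα.1.1
    have h2 : α ≤ α₀ * (1 + 3 * η) := hα.1.2
    constructor
    · refine le_trans ?_ (hα1.trans h1)
      exact one_div_le_one_div_of_le hR0 (by linarith)
    · refine h2.trans ?_
      nlinarith
  have hsv := hN2 G hG2 (J ∩ T) (hJm.inter hTm) hsub
  have hdiff : ∫ α in J \ T, M α ≤ 3 * η * R * ((G.card : ℝ) / Real.log N ^ 3) := by
    have hDf : volume (J \ T) ≠ ⊤ := ne_top_of_le_ne_top hJf (measure_mono Set.sdiff_subset)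
    have h1 : ∫ α in J \ T, M α ≤ ∫ _ in J \ T, (G.card : ℝ) / Real.log N ^ 3 := by
      refine setIntegral_mono_on (int_Mc κ γ a b G hDf) (integrableOn_const hDf)
        (hJm.diff hTm) fun α hα => ?_
      have h2 : ¬ (G.card : ℝ) ≤ M α * Real.log N ^ 3 := hα.2
      rw [le_div_iff₀ (by positivity)]
      exact (not_le.1 h2).le
    refine h1.trans ?_
    rw [setIntegral_const, smul_eq_mul]
    refine mul_le_mul_of_nonneg_right ?_ (by positivity)
    have h3 : (volume.real (J \ T)) ≤ 3 * η * α₀ := by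
      refine ENNReal.toReal_le_of_le_ofReal (by positivity) ?_
      rw [← hJv]
      exact measure_mono Set.sdiff_subset
    exact h3.trans (mul_le_mul_of_nonneg_left hα2 (by positivity))
  have hfm := hN1 G hG hGc
  have hfm' : c₁ * η * G.card / Real.log N ^ 2 ≤ ∫ α in J, M α := hfm
  have hsv' : ∫ α in J ∩ T, M α ≤ C₂ * G.card / Real.log N ^ 2 * (volume (J ∩ T)).toReal +
    (N : ℝ) ^ (1 - c₂) := hsv
  -- the two errors
  have herr1 : (N : ℝ) ^ (1 - c₂) ≤ c₁ * η / 4 * (G.card / Real.log N ^ 2) := by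
    have h1 : (N : ℝ) ^ (1 - c₂) * Real.log N ^ (C + 2) ≤ c₁ * η / 4 * N := by
      calc (N : ℝ) ^ (1 - c₂) * Real.log N ^ (C + 2)
          ≤ (N : ℝ) ^ (1 - c₂) * (c₁ * η / 4 * (N : ℝ) ^ c₂) :=
            mul_le_mul_of_nonneg_left hN3 (by positivity)
        _ = c₁ * η / 4 * ((N : ℝ) ^ (1 - c₂) * (N : ℝ) ^ c₂) := by ring
        _ = c₁ * η / 4 * N := by
            rw [← Real.rpow_add hN0, sub_add_cancel, Real.rpow_one]
    have h2 : (N : ℝ) ^ (1 - c₂) * Real.log N ^ (C + 2) ≤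
        c₁ * η / 4 * (G.card * Real.log N ^ C) :=
      h1.trans (mul_le_mul_of_nonneg_left hGc (by positivity))
    rw [← mul_div_assoc, le_div_iff₀ (by positivity)]
    have h3 : (N : ℝ) ^ (1 - c₂) * Real.log N ^ 2 * Real.log N ^ C ≤
        c₁ * η / 4 * G.card * Real.log N ^ C := by
      calc (N : ℝ) ^ (1 - c₂) * Real.log N ^ 2 * Real.log N ^ C
          = (N : ℝ) ^ (1 - c₂) * Real.log N ^ (C + 2) := by ring
        _ ≤ c₁ * η / 4 * (G.card * Real.log N ^ C) := h2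
        _ = _ := by ring
    exact le_of_mul_le_mul_right h3 (by positivity)
  have herr2 : 3 * η * R * ((G.card : ℝ) / Real.log N ^ 3) ≤
      c₁ * η / 4 * (G.card / Real.log N ^ 2) := by
    have h1 : 3 * R ≤ c₁ / 4 * Real.log N := by
      rw [div_le_iff₀ hc₁] at hN4
      linarith
    have h2 : (G.card : ℝ) / Real.log N ^ 2 = G.card / Real.log N ^ 3 * Real.log N := by
      field_simp
    rw [h2]
    have h3 : 0 ≤ η * ((G.card : ℝ) / Real.log N ^ 3) := by positivity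
    nlinarith [mul_le_mul_of_nonneg_left h1 h3]
  have hfin : c₁ * η / 2 ≤ C₂ * (volume (J ∩ T)).toReal := by
    have hpos : 0 < (G.card : ℝ) / Real.log N ^ 2 := by positivity
    have h1 : c₁ * η * (G.card / Real.log N ^ 2) ≤
        C₂ * (volume (J ∩ T)).toReal * (G.card / Real.log N ^ 2) +
          c₁ * η / 2 * (G.card / Real.log N ^ 2) := by
      have e3 : c₁ * η * (G.card / Real.log N ^ 2) = c₁ * η * G.card / Real.log N ^ 2 := by ring
      have e4 : C₂ * (volume (J ∩ T)).toReal * (G.card / Real.log N ^ 2) =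
        C₂ * G.card / Real.log N ^ 2 * (volume (J ∩ T)).toReal := by ring
      rw [e3, e4]
      linarith
    have h2 : c₁ * η / 2 * (G.card / Real.log N ^ 2) ≤
        C₂ * (volume (J ∩ T)).toReal * (G.card / Real.log N ^ 2) := by linarith
    exact le_of_mul_le_mul_right h2 hpos
  refine ENNReal.ofReal_le_of_le_toReal ?_
  rw [div_mul_eq_mul_div, div_le_iff₀ (by positivity)]
  linarith

end Pool.Agent.D0H35.CC
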