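import Pool.Agent.D0H61.CC.Stm

/-!
Module GEO of project CC: the analytic inequality.
-/

set_option autoImplicit false

namespace Pool.Agent.D0H35.CC

open Filter Topology MeasureTheory Finset Pool.Agent.D0H61.CC

theorem abm {a b A B : ℝ} (ha : |a| ≤ A) (hb : |b| ≤ B) : |a * b| ≤ A * B := by
  rw [abs_mul]
  exact mul_le_mul ha hb (abs_nonneg _) ((abs_nonneg _).trans ha)

theorem log_near {u p : ℝ} (hp : 0 < p) (h : |u - p| ≤ p / 2) :
    |Real.log u - Real.log p - (u - p) / p| ≤ 2 * ((u - p) / p) ^ 2 := by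
  set z := (u - p) / p with hz
  have hz1 : |z| ≤ 1 / 2 := by
    rw [hz, abs_div, abs_of_pos hp, div_le_iff₀ hp]
    linarith
  have hu : u = p * (1 - (-z)) := by
    rw [hz]
    field_simp
    ring
  have h1 := Real.abs_log_sub_add_sum_range_le (x := -z) (by rw [abs_neg]; linarith) 1
  have hz2 : 0 < 1 - -z := by
    have := (abs_le.1 hz1).1
    linarith
  have hlog : Real.log u - Real.log p = Real.log (1 - -z) := by
    rw [hu, Real.log_mul hp.ne' hz2.ne']
    ring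
  rw [hlog]
  have h2 : ∑ i ∈ range 1, (-z) ^ (i + 1) / (i + 1 : ℝ) + Real.log (1 - -z) =
      Real.log (1 - -z) - z := by
    simp
    ring
  rw [h2] at h1
  refine h1.trans ?_
  rw [abs_neg, div_le_iff₀ (by linarith)]
  have h3 : |z| ^ (1 + 1) = z ^ 2 := by rw [one_add_one_eq_two, sq_abs]
  rw [h3]
  nlinarith [sq_nonneg z]

theorem near {κ γ a b Q η α₀ ρ s N n p r t : ℝ} (hQ : 1 ≤ Q) (hκ : |κ| ≤ Q) (hκ' : |1 - κ| ≤ Q)
    (ha : |1 / 2 - a| ≤ Q) (hb : |1 / 2 - b| ≤ Q) (hγ : 0 < γ) (hα : 1 / Q ≤ α₀)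
    (hρ : ρ = γ * α₀ ^ κ) (hρ1 : ρ ≤ Q) (hρ2 : 1 / Q ≤ ρ) (hη : 0 < η)
    (hη' : η * (1100 * Q ^ 4) ≤ 1)
    (hs : s = κ * (1 / 2 - a) / α₀ - (1 / 2 - b) / ρ)
    (hN : 100 * Q * (26 * Q ^ 5 + 2 * Q ^ 2 * (1 + |s|)) ≤ N)
    (hn : N < n) (hn' : n ≤ (1 + η) * N) (hp : α₀ * N * (1 + 1.2 * η) < p)
    (hp' : p ≤ α₀ * N * (1 + 2.8 * η)) (hr : 0 < r)
    (hPhi : |Real.log γ + s / N + κ * Real.log p + (1 - κ) * Real.log n - Real.log r| ≤
      1 / (100 * Q) / N) (ht : |t| ≤ 1 / (100 * Q ^ 3)) :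
    |γ * ((p - a + 1 / 2 + t) / n) ^ κ * n - (r - b + 1 / 2)| < 1 / 2 := by
  have hQ0 : 0 < Q := by linarith
  have hα0 : 0 < α₀ := lt_of_lt_of_le (by positivity) hα
  have hρ0 : 0 < ρ := lt_of_lt_of_le (by positivity) hρ2
  have hQ2 : 1 ≤ Q ^ 2 := one_le_pow₀ hQ
  have hQ3 : 1 ≤ Q ^ 3 := one_le_pow₀ hQ
  have hQ4 : 1 ≤ Q ^ 4 := one_le_pow₀ hQ
  have hQ5 : 1 ≤ Q ^ 5 := one_le_pow₀ hQ
  have hs0 : 0 ≤ |s| := abs_nonneg s
  have hNbig : 2600 * Q ^ 6 ≤ N := by
    refine le_trans ?_ hN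
    have : 100 * Q * (26 * Q ^ 5 + 2 * Q ^ 2 * (1 + |s|)) =
      2600 * Q ^ 6 + 200 * Q ^ 3 * (1 + |s|) := by ring
    rw [this]
    have : 0 ≤ 200 * Q ^ 3 * (1 + |s|) := by positivity
    linarith
  have hN0 : 0 < N := lt_of_lt_of_le (by positivity) hNbig
  have hn0 : 0 < n := hN0.trans hn
  have hαN : 0 < α₀ * N := by positivity
  have hp1 : α₀ * N < p := by
    refine lt_of_le_of_lt ?_ hp
    have : 0 ≤ α₀ * N * (1.2 * η) := by positivity
    linarith
  have hp0 : 0 < p := hαN.trans hp1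
  have hαQ : 1 / α₀ ≤ Q := by
    rw [div_le_iff₀ hα0]
    rw [div_le_iff₀ hQ0] at hα
    linarith
  have hρQ : 1 / ρ ≤ Q := by
    rw [div_le_iff₀ hρ0]
    rw [div_le_iff₀ hQ0] at hρ2
    linarith
  have hη3 : η * Q ^ 3 ≤ 1 / (1100 * Q) := by
    rw [le_div_iff₀ (by positivity)]
    calc η * Q ^ 3 * (1100 * Q) = η * (1100 * Q ^ 4) := by ring
      _ ≤ 1 := hη'
  have hη4 : η * 1 ≤ η * Q ^ 4 := mul_le_mul_of_nonneg_left hQ4 hη.le
  have hη1 : η ≤ 1 / 1100 := by
    rw [le_div_iff₀ (by norm_num)]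
    linarith
  -- `1 / p`
  have hpinv : 1 / p ≤ Q / N := by
    calc 1 / p ≤ 1 / (α₀ * N) := one_div_le_one_div_of_le hαN hp1.le
      _ = 1 / α₀ / N := by field_simp
      _ ≤ Q / N := div_le_div_of_nonneg_right hαQ hN0.le
  have hpinv' : |1 / p - 1 / (α₀ * N)| ≤ 2.8 * η * Q / N := by
    rw [abs_sub_comm, abs_of_nonneg (sub_nonneg.2 (one_div_le_one_div_of_le hαN hp1.le))]
    have h1 : 1 / (α₀ * N) - 1 / p = (p - α₀ * N) / (α₀ * N) * (1 / p) := by
      field_simp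
    rw [h1]
    have h2 : (p - α₀ * N) / (α₀ * N) ≤ 2.8 * η := by
      rw [div_le_iff₀ hαN]
      linarith
    calc (p - α₀ * N) / (α₀ * N) * (1 / p) ≤ 2.8 * η * (Q / N) := by
          refine mul_le_mul h2 hpinv (by positivity) (by positivity)
      _ = _ := by ring
  -- `L`
  set Phi := Real.log γ + s / N + κ * Real.log p + (1 - κ) * Real.log n - Real.log r with hPhid
  have hlogρ : Real.log (ρ * N) = Real.log γ + κ * Real.log (α₀ * N) + (1 - κ) * Real.log N := by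
    rw [hρ, Real.log_mul (by positivity) hN0.ne', Real.log_mul hγ.ne' (by positivity),
      Real.log_rpow hα0, Real.log_mul hα0.ne' hN0.ne']
    ring
  set L := Real.log r - Real.log (ρ * N) with hL
  have hLeq : L = s / N - Phi + κ * (Real.log p - Real.log (α₀ * N)) +
      (1 - κ) * (Real.log n - Real.log N) := by
    rw [hL, hlogρ, hPhid]
    ring
  have hlp : |Real.log p - Real.log (α₀ * N)| ≤ 2.8 * η := by
    rw [abs_of_nonneg (sub_nonneg.2 (Real.log_le_log hαN hp1.le)), ← Real.log_div hp0.ne' hαN.ne']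
    refine (Real.log_le_sub_one_of_pos (by positivity)).trans ?_
    rw [sub_le_iff_le_add, div_le_iff₀ hαN]
    linarith
  have hln : |Real.log n - Real.log N| ≤ η := by
    rw [abs_of_nonneg (sub_nonneg.2 (Real.log_le_log hN0 hn.le)), ← Real.log_div hn0.ne' hN0.ne']
    refine (Real.log_le_sub_one_of_pos (by positivity)).trans ?_
    rw [sub_le_iff_le_add, div_le_iff₀ hN0]
    linarith
  have hQinv : 1 / (100 * Q) ≤ 1 := by
    rw [div_le_one (by positivity)]
    linarith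
  have hLle : |L| ≤ (1 + |s|) / N + 3.8 * Q * η := by
    rw [hLeq]
    have h1 : |s / N| = |s| / N := by rw [abs_div, abs_of_pos hN0]
    have h2 : |Phi| ≤ 1 / N := hPhi.trans (div_le_div_of_nonneg_right hQinv hN0.le)
    have h3 := abm hκ hlp
    have h4 := abm hκ' hln
    have h5 := abs_add_three (s / N - Phi) (κ * (Real.log p - Real.log (α₀ * N)))
      ((1 - κ) * (Real.log n - Real.log N))
    have h6 := abs_sub (s / N) Phi
    have h7 : (1 + |s|) / N = 1 / N + |s| / N := add_div _ _ _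
    have h8 : 3.8 * Q * η = Q * (2.8 * η) + Q * η := by ring
    rw [h7, h8]
    rw [h1] at h6
    linarith
  have hsN : (1 + |s|) / N ≤ 1 / (200 * Q ^ 3) := by
    rw [div_le_div_iff₀ hN0 (by positivity)]
    have : 100 * Q * (26 * Q ^ 5 + 2 * Q ^ 2 * (1 + |s|)) =
      2600 * Q ^ 6 + (1 + |s|) * (200 * Q ^ 3) := by ring
    rw [this] at hN
    have : 0 ≤ 2600 * Q ^ 6 := by positivity
    linarith
  have hL1 : |L| ≤ 1 / 100 := by
    have h1 : 1 / (200 * Q ^ 3) ≤ 1 / 200 :=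
      one_div_le_one_div_of_le (by norm_num) (by linarith)
    have h2 : Q * η ≤ 1 / 1100 := by
      have h4 : Q ≤ Q ^ 4 := le_self_pow₀ hQ (by norm_num)
      have h3 : η * Q ≤ η * Q ^ 4 := mul_le_mul_of_nonneg_left h4 hη.le
      rw [le_div_iff₀ (by norm_num)]
      linarith
    linarith
  have hrρ : r = ρ * N * Real.exp L := by
    rw [hL, Real.exp_sub, Real.exp_log hr, Real.exp_log (by positivity)]
    field_simp
  have hexpL := Real.abs_exp_sub_one_le (x := L) (by linarith)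
  have hexpL' := Real.abs_exp_sub_one_le (x := -L) (by rw [abs_neg]; linarith)
  rw [abs_neg] at hexpL'
  have hr1 : r ≤ 2 * Q * N := by
    have h1 : Real.exp L ≤ 2 := by linarith [(abs_le.1 hexpL).2]
    calc r = ρ * N * Real.exp L := hrρ
      _ ≤ Q * N * 2 := by gcongr
      _ = _ := by ring
  have hr2 : 1 / r ≤ 2 * Q / N := by
    have h1 : 1 / r = 1 / ρ / N * Real.exp (-L) := by
      rw [hrρ, Real.exp_neg]
      field_simp
    have h2 : Real.exp (-L) ≤ 2 := by linarith [(abs_le.1 hexpL').2]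
    rw [h1]
    calc 1 / ρ / N * Real.exp (-L) ≤ Q / N * 2 := by gcongr
      _ = _ := by ring
  have hr3 : |1 / r - 1 / (ρ * N)| ≤ 2 * |L| * (Q / N) := by
    have h1 : 1 / r - 1 / (ρ * N) = (Real.exp (-L) - 1) * (1 / ρ / N) := by
      rw [hrρ, Real.exp_neg]
      field_simp
    rw [h1]
    refine abm hexpL' ?_
    rw [abs_of_pos (by positivity)]
    gcongr
  -- `u` and `m`
  set u := p - a + 1 / 2 + t with hu
  set m := r - b + 1 / 2 with hm
  have ht1 : |t| ≤ 1 := ht.trans (by rw [div_le_one (by positivity)]; linarith)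
  have hup : |u - p| ≤ 2 * Q := by
    have : u - p = (1 / 2 - a) + t := by rw [hu]; ring
    rw [this]
    refine (abs_add_le _ _).trans ?_
    linarith
  have hmr : |m - r| ≤ Q := by
    have : m - r = 1 / 2 - b := by rw [hm]; ring
    rw [this]
    exact hb
  have hupp : |(u - p) / p| ≤ 2 * Q ^ 2 / N := by
    rw [div_eq_mul_one_div]
    refine (abm hup (b := 1 / p) (B := Q / N) ?_).trans (le_of_eq (by ring))
    rw [abs_of_pos (by positivity)]
    exact hpinv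
  have hmrr : |(m - r) / r| ≤ 2 * Q ^ 2 / N := by
    rw [div_eq_mul_one_div]
    refine (abm hmr (b := 1 / r) (B := 2 * Q / N) ?_).trans (le_of_eq (by ring))
    rw [abs_of_pos (by positivity)]
    exact hr2
  have hsmall : 2 * Q ^ 2 / N ≤ 1 / 2 := by
    rw [div_le_iff₀ hN0]
    have h4 : Q ^ 2 ≤ Q ^ 6 := pow_le_pow_right₀ hQ (by norm_num)
    linarith
  have hu2 : |u - p| ≤ p / 2 := by
    have := hupp.trans hsmall
    rw [abs_div, abs_of_pos hp0, div_le_iff₀ hp0] at this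
    linarith
  have hm2 : |m - r| ≤ r / 2 := by
    have := hmrr.trans hsmall
    rw [abs_div, abs_of_pos hr, div_le_iff₀ hr] at this
    linarith
  have hu0 : 0 < u := by
    have := (abs_le.1 hu2).1
    linarith
  have hm0 : 0 < m := by
    have := (abs_le.1 hm2).1
    linarith
  have hE1 := log_near hp0 hu2
  have hE2 := log_near hr hm2
  set E₁ := Real.log u - Real.log p - (u - p) / p with hE₁
  set E₂ := Real.log m - Real.log r - (m - r) / r with hE₂
  have hsqb : ∀ z : ℝ, |z| ≤ 2 * Q ^ 2 / N → 2 * z ^ 2 ≤ 8 * Q ^ 4 / N / N := by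
    intro z hz
    have h1 : z ^ 2 ≤ (2 * Q ^ 2 / N) ^ 2 := by
      rw [← sq_abs]
      exact pow_le_pow_left₀ (abs_nonneg _) hz 2
    have h2 : (2 * Q ^ 2 / N) ^ 2 = 4 * Q ^ 4 / N / N := by
      field_simp
      ring
    have h3 : 8 * Q ^ 4 / N / N = 2 * (4 * Q ^ 4 / N / N) := by ring
    rw [h3, ← h2]
    linarith
  have hE1' := hE1.trans (hsqb _ hupp)
  have hE2' := hE2.trans (hsqb _ hmrr)
  -- the difference of the logarithms
  have hx0 : 0 < γ * (u / n) ^ κ * n := by positivity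
  have hlogx : Real.log (γ * (u / n) ^ κ * n) = Real.log γ + κ * Real.log u +
      (1 - κ) * Real.log n := by
    rw [Real.log_mul (by positivity) hn0.ne', Real.log_mul hγ.ne' (by positivity),
      Real.log_rpow (by positivity), Real.log_div hu0.ne' hn0.ne']
    ring
  set D := Real.log (γ * (u / n) ^ κ * n) - Real.log m with hD
  have hDeq : D = Phi + κ * (1 / 2 - a) * (1 / p - 1 / (α₀ * N)) + κ * t * (1 / p) + κ * E₁ -
      (1 / 2 - b) * (1 / r - 1 / (ρ * N)) - E₂ := by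
    rw [hD, hlogx, hPhid, hE₁, hE₂, hs, hu, hm]
    field_simp
    ring
  have k1 : |κ * (1 / 2 - a) * (1 / p - 1 / (α₀ * N))| ≤ Q * Q * (2.8 * η * Q / N) :=
    abm (abm hκ ha) hpinv'
  have k2 : |κ * t * (1 / p)| ≤ Q * (1 / (100 * Q ^ 3)) * (Q / N) := by
    refine abm (abm hκ ht) ?_
    rw [abs_of_pos (by positivity)]
    exact hpinv
  have k3 : |κ * E₁| ≤ Q * (8 * Q ^ 4 / N / N) := abm hκ hE1'
  have k4 : |(1 / 2 - b) * (1 / r - 1 / (ρ * N))| ≤ Q * (2 * |L| * (Q / N)) := abm hb hr3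
  have hDle : |D| ≤ 1 / (25 * Q) / N := by
    have h1 : |D| ≤ |Phi| + |κ * (1 / 2 - a) * (1 / p - 1 / (α₀ * N))| + |κ * t * (1 / p)| +
        |κ * E₁| + |(1 / 2 - b) * (1 / r - 1 / (ρ * N))| + |E₂| := by
      rw [hDeq]
      refine (abs_sub _ _).trans (add_le_add_left ?_ _)
      refine (abs_sub _ _).trans (add_le_add_left ?_ _)
      refine (abs_add_le _ _).trans (add_le_add_left ?_ _)
      refine (abs_add_le _ _).trans (add_le_add_left ?_ _)
      exact abs_add_le _ _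
    have h2 : |D| * N ≤ 1 / (100 * Q) + 2.8 * (η * Q ^ 3) + 1 / (100 * Q) + 8 * Q ^ 5 / N +
        2 * Q ^ 2 * |L| + 8 * Q ^ 4 / N := by
      have e0 : 1 / (100 * Q) / N * N = 1 / (100 * Q) := by field_simp
      have e1 : Q * Q * (2.8 * η * Q / N) * N = 2.8 * (η * Q ^ 3) := by field_simp
      have e2 : Q * (1 / (100 * Q ^ 3)) * (Q / N) * N = 1 / (100 * Q) := by field_simp
      have e3 : Q * (8 * Q ^ 4 / N / N) * N = 8 * Q ^ 5 / N := by field_simp
      have e4 : Q * (2 * |L| * (Q / N)) * N = 2 * Q ^ 2 * |L| := by field_simp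
      have e5 : 8 * Q ^ 4 / N / N * N = 8 * Q ^ 4 / N := by field_simp
      have h3 : |D| ≤ 1 / (100 * Q) / N + Q * Q * (2.8 * η * Q / N) +
          Q * (1 / (100 * Q ^ 3)) * (Q / N) + Q * (8 * Q ^ 4 / N / N) + Q * (2 * |L| * (Q / N)) +
          8 * Q ^ 4 / N / N := by linarith
      calc |D| * N ≤ (1 / (100 * Q) / N + Q * Q * (2.8 * η * Q / N) +
          Q * (1 / (100 * Q ^ 3)) * (Q / N) + Q * (8 * Q ^ 4 / N / N) + Q * (2 * |L| * (Q / N)) +
          8 * Q ^ 4 / N / N) * N := mul_le_mul_of_nonneg_right h3 hN0.le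
        _ = _ := by rw [add_mul, add_mul, add_mul, add_mul, add_mul, e0, e1, e2, e3, e4, e5]
    have h4 : 2 * Q ^ 2 * |L| ≤ 2 * Q ^ 2 * (1 + |s|) / N + 7.6 * (η * Q ^ 3) := by
      calc 2 * Q ^ 2 * |L| ≤ 2 * Q ^ 2 * ((1 + |s|) / N + 3.8 * Q * η) :=
            mul_le_mul_of_nonneg_left hLle (by positivity)
        _ = _ := by ring
    have h5 : 8 * Q ^ 5 / N + 8 * Q ^ 4 / N + 2 * Q ^ 2 * (1 + |s|) / N ≤ 1 / (100 * Q) := by
      rw [← add_div, ← add_div, div_le_div_iff₀ hN0 (by positivity)]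
      have h6 : Q ^ 4 ≤ Q ^ 5 := pow_le_pow_right₀ hQ (by norm_num)
      have h7 : (8 * Q ^ 5 + 8 * Q ^ 4 + 2 * Q ^ 2 * (1 + |s|)) ≤
        26 * Q ^ 5 + 2 * Q ^ 2 * (1 + |s|) := by linarith
      calc (8 * Q ^ 5 + 8 * Q ^ 4 + 2 * Q ^ 2 * (1 + |s|)) * (100 * Q) ≤
          (26 * Q ^ 5 + 2 * Q ^ 2 * (1 + |s|)) * (100 * Q) :=
            mul_le_mul_of_nonneg_right h7 (by positivity)
        _ = 100 * Q * (26 * Q ^ 5 + 2 * Q ^ 2 * (1 + |s|)) := by ring
        _ ≤ 1 * N := by linarith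
    have h8 : 10.4 * (η * Q ^ 3) ≤ 1 / (100 * Q) := by
      have : 1 / (100 * Q) = 11 * (1 / (1100 * Q)) := by field_simp; norm_num
      rw [this]
      have : 0 ≤ η * Q ^ 3 := by positivity
      linarith
    rw [le_div_iff₀ hN0]
    have h9 : 1 / (25 * Q) = 4 * (1 / (100 * Q)) := by field_simp; norm_num
    rw [h9]
    linarith
  have hD1 : |D| ≤ 1 := by
    refine hDle.trans ?_
    rw [div_div, div_le_one (by positivity)]
    have h1 : 1 ≤ N := by
      have : 1 ≤ Q ^ 6 := one_le_pow₀ hQ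
      linarith
    have h2 : 1 * 1 ≤ Q * N := mul_le_mul hQ h1 (by norm_num) hQ0.le
    linarith
  have hexpD := Real.abs_exp_sub_one_le (x := D) hD1
  have hxm : γ * (u / n) ^ κ * n = m * Real.exp D := by
    rw [hD, Real.exp_sub, Real.exp_log hx0, Real.exp_log hm0]
    field_simp
  have hfin : γ * (u / n) ^ κ * n - m = m * (Real.exp D - 1) := by rw [hxm]; ring
  rw [hfin, abs_mul, abs_of_pos hm0]
  have hmle : m ≤ 3 * Q * N := by
    have h1 := (abs_le.1 hmr).2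
    have h2 : 1 ≤ N := by
      have : 1 ≤ Q ^ 6 := one_le_pow₀ hQ
      linarith
    have h3 : Q * 1 ≤ Q * N := mul_le_mul_of_nonneg_left h2 hQ0.le
    linarith
  calc m * |Real.exp D - 1| ≤ 3 * Q * N * (2 * (1 / (25 * Q) / N)) := by
        refine mul_le_mul hmle (hexpD.trans ?_) (abs_nonneg _) (by positivity)
        linarith
    _ = 6 / 25 := by field_simp; norm_num
    _ < 1 / 2 := by norm_num

end Pool.Agent.D0H35.CC
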